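import Pool.Agent.TDV.StmtsD

/-!
Module CUN of squad TDV: uniqueness of copies.
-/

set_option autoImplicit false

namespace Pool.Agent.TDV.H31

open Pool.Agent.TDV

lemma perm_large (π : Equiv.Perm ℕ) (m : ℕ) : ∃ M, ∀ n ≥ M, m ≤ π n := by
  obtain ⟨M, hM⟩ := (((Finset.range m).image π.symm).bddAbove)
  refine ⟨M + 1, fun n hn => ?_⟩
  by_contra h
  have h1 : n ∈ (Finset.range m).image π.symm :=
    Finset.mem_image.2 ⟨π n, Finset.mem_range.2 (by omega), π.symm_apply_apply n⟩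
  have h2 : n ≤ M := hM (Finset.mem_coe.2 h1)
  omega

/-- CUN -/
theorem cun : CunStmt := by
  intro g p c hg hd r hr x i j k ⟨mi, hi⟩ ⟨mj, hj⟩ ⟨mk, hk⟩
  -- the quotients
  have hq : ∀ s t : ℕ, ∃ q, ∀ n, g s (g q n) = g t n := by
    intro s t
    obtain ⟨s', hs'⟩ := hg.inv s
    obtain ⟨q, hq⟩ := hg.mul s' t
    refine ⟨q, fun n => ?_⟩
    rw [hq, hs', Equiv.Perm.mul_apply]
    exact Equiv.apply_symm_apply (g s) (g t n)
  obtain ⟨u, hu⟩ := hq j i
  obtain ⟨a, ha⟩ := hq k i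
  obtain ⟨b, hb⟩ := hq k j
  -- step 1
  have h1 : ∃ m, ∀ n ≥ m, n % 2 = r → g u n % 2 = r → g u n = n := by
    by_contra hcon
    push Not at hcon
    obtain ⟨M, hM⟩ := perm_large (g u) mj
    obtain ⟨n, hn, e1, e2, e3, e4, e5⟩ := hd.gen u r hr r hr
      (fun m => by
        obtain ⟨n, hn, h1, h2, h3⟩ := hcon m
        exact ⟨n, hn, h1, h2, h3⟩) (max mi M)
    apply e5
    rw [← hi n (le_trans (le_max_left _ _) hn) e1 e3,
      ← hj (g u n) (hM n (le_trans (le_max_right _ _) hn)) e2 e4, hu]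
  -- step 2
  have h2 : ∀ s a mi, (∀ n ≥ mi, n % 2 = r → n ∉ Set.range p → x (g s n) = c n) →
      (∀ n, g k (g a n) = g s n) → ∃ m, ∀ n ≥ m, n % 2 = r → g a n % 2 = r := by
    intro s a mi hi ha
    by_contra hcon
    push Not at hcon
    obtain ⟨M, hM⟩ := perm_large (g a) mk
    obtain ⟨n, hn, e1, e2, e3, e4, e5⟩ := hd.gen a r hr (1 - r) (by omega)
      (fun m => by
        obtain ⟨n, hn, h1, h2⟩ := hcon m
        refine ⟨n, hn, h1, by omega, ?_⟩
        intro h
        rw [h] at h2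
        exact h2 h1) (max mi M)
    apply e5
    rw [← hi n (le_trans (le_max_left _ _) hn) e1 e3,
      ← hk (g a n) (hM n (le_trans (le_max_right _ _) hn)) e2 e4, ha]
  obtain ⟨m1, h1⟩ := h1
  obtain ⟨ma, h2a⟩ := h2 i a mi hi ha
  obtain ⟨mb, h2b⟩ := h2 j b mj hj hb
  obtain ⟨M, hM⟩ := perm_large (g b) m1
  refine ⟨max (max ma mb) M, fun n hn hr' => ?_⟩
  have hn1 : ma ≤ n := le_trans (le_trans (le_max_left _ _) (le_max_left _ _)) hn
  have hn2 : mb ≤ n := le_trans (le_trans (le_max_right _ _) (le_max_left _ _)) hn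
  have hn3 : M ≤ n := le_trans (le_max_right _ _) hn
  have hcom : ∀ s t y, g s (g t y) = g t (g s y) := by
    intro s t y
    have := congrArg (fun f : Equiv.Perm ℕ => f y) (hg.com s t)
    simpa [Equiv.Perm.mul_apply] using this
  have e1 : g u (g b n) = g a n := by
    apply (g k).injective
    apply (g j).injective
    rw [ha, hcom j k, hu, hcom k i, hb, hcom i j]
  have e2 : g u (g b n) = g b n := by
    refine h1 _ (hM n hn3) (h2b n hn2 hr') ?_
    rw [e1]
    exact h2a n hn1 hr'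
  rw [← ha n, ← hb n, ← e1, e2]

end Pool.Agent.TDV.H31
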