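import Pool.Agent.TDV.Stmts

/-!
Module VCL of squad TDV: reals below each other are equivalent.
-/

set_option autoImplicit false

namespace Pool.Agent.TDV.H31

open Pool.Agent.TDV

lemma eqv_refl (x : ℕ → Bool) : Eqv x x := fun _ _ => Iff.rfl

lemma eqv_symm {x y : ℕ → Bool} (h : Eqv x y) : Eqv y x := fun A hA => (h A hA).symm

lemma eqv_trans {x y z : ℕ → Bool} (h : Eqv x y) (h' : Eqv y z) : Eqv x z :=
  fun A hA => (h A hA).trans (h' A hA)

lemma eqv_perm {π : Equiv.Perm ℕ} (hπ : IsV π) (x : ℕ → Bool) : Eqv x (fun n => x (π n)) :=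
  fun _ hA => hA π hπ x

lemma jo_even (x y : ℕ → Bool) (n : ℕ) : jo x y (2 * n) = x n := by
  unfold jo
  rw [if_pos (by omega)]
  congr 1
  omega

lemma jo_odd (x y : ℕ → Bool) (n : ℕ) : jo x y (2 * n + 1) = y n := by
  unfold jo
  rw [if_neg (by omega)]
  congr 1
  omega

/-- exchange of the even and the odd positions -/
def sw : Equiv.Perm ℕ where
  toFun n := if n % 2 = 0 then n + 1 else n - 1
  invFun n := if n % 2 = 0 then n + 1 else n - 1
  left_inv := by
    intro n
    dsimp only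
    split_ifs <;> omega
  right_inv := by
    intro n
    dsimp only
    split_ifs <;> omega

lemma sw_even (n : ℕ) : sw (2 * n) = 2 * n + 1 := by
  change (if 2 * n % 2 = 0 then 2 * n + 1 else 2 * n - 1) = _
  rw [if_pos (by omega)]

lemma sw_odd (n : ℕ) : sw (2 * n + 1) = 2 * n := by
  change (if (2 * n + 1) % 2 = 0 then 2 * n + 1 + 1 else 2 * n + 1 - 1) = _
  rw [if_neg (by omega)]
  omega

lemma isV_sw : IsV sw := by
  refine ⟨1, fun r hr => ?_⟩
  have h : r = 0 ∨ r = 1 := by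
    rw [pow_one] at hr
    omega
  rcases h with rfl | rfl
  · exact ⟨1, 1, fun n => by rw [pow_one, add_zero, sw_even]⟩
  · exact ⟨1, 0, fun n => by rw [pow_one, add_zero, sw_odd]⟩

lemma eqv_swap (x y : ℕ → Bool) : Eqv (jo x y) (jo y x) := by
  have h : (fun n => jo x y (sw n)) = jo y x := by
    funext n
    obtain ⟨m, hm⟩ := Nat.even_or_odd' n
    rcases hm with rfl | rfl
    · change jo x y (sw (2 * m)) = _
      rw [sw_even, jo_odd, jo_even]
    · change jo x y (sw (2 * m + 1)) = _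
      rw [sw_odd, jo_odd, jo_even]
  rw [← h]
  exact eqv_perm isV_sw _

/-- re-bracketing -/
def asc : Equiv.Perm ℕ where
  toFun n := if n % 2 = 0 then 2 * n else if n % 4 = 1 then n + 1 else (n - 1) / 2
  invFun n := if n % 4 = 0 then n / 2 else if n % 4 = 2 then n - 1 else 2 * n + 1
  left_inv := by
    intro n
    dsimp only
    split_ifs <;> omega
  right_inv := by
    intro n
    dsimp only
    split_ifs <;> omega

lemma asc_def (n : ℕ) :
    asc n = if n % 2 = 0 then 2 * n else if n % 4 = 1 then n + 1 else (n - 1) / 2 := rfl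

lemma asc_0 (n : ℕ) : asc (2 * n) = 2 * (2 * n) := by
  rw [asc_def, if_pos (by omega)]

lemma asc_1 (n : ℕ) : asc (2 * (2 * n) + 1) = 2 * (2 * n + 1) := by
  rw [asc_def, if_neg (by omega), if_pos (by omega)]
  omega

lemma asc_2 (n : ℕ) : asc (2 * (2 * n + 1) + 1) = 2 * n + 1 := by
  rw [asc_def, if_neg (by omega), if_neg (by omega)]
  omega

lemma isV_asc : IsV asc := by
  refine ⟨2, fun r hr => ?_⟩
  have h : r = 0 ∨ r = 1 ∨ r = 2 ∨ r = 3 := by
    norm_num at hr
    omega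
  rcases h with rfl | rfl | rfl | rfl
  · refine ⟨3, 0, fun n => ?_⟩
    have e : 2 ^ 2 * n + 0 = 2 * (2 * n) := by ring
    rw [e, asc_0]
    ring
  · refine ⟨2, 2, fun n => ?_⟩
    have e : 2 ^ 2 * n + 1 = 2 * (2 * n) + 1 := by ring
    rw [e, asc_1]
    ring
  · refine ⟨3, 4, fun n => ?_⟩
    have e : 2 ^ 2 * n + 2 = 2 * (2 * n + 1) := by ring
    rw [e, asc_0]
    ring
  · refine ⟨1, 1, fun n => ?_⟩
    have e : 2 ^ 2 * n + 3 = 2 * (2 * n + 1) + 1 := by ring
    rw [e, asc_2]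
    ring

lemma eqv_asc (x y z : ℕ → Bool) : Eqv (jo (jo x y) z) (jo x (jo y z)) := by
  have h : (fun n => jo (jo x y) z (asc n)) = jo x (jo y z) := by
    funext n
    obtain ⟨m, hm⟩ := Nat.even_or_odd' n
    rcases hm with rfl | rfl
    · change jo (jo x y) z (asc (2 * m)) = _
      rw [asc_0, jo_even, jo_even, jo_even]
    · obtain ⟨l, hl⟩ := Nat.even_or_odd' m
      rcases hl with rfl | rfl
      · change jo (jo x y) z (asc (2 * (2 * l) + 1)) = _
        rw [asc_1, jo_even, jo_odd, jo_odd, jo_even]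
      · change jo (jo x y) z (asc (2 * (2 * l + 1) + 1)) = _
        rw [asc_2, jo_odd, jo_odd, jo_odd]
  rw [← h]
  exact eqv_perm isV_asc _

/-- the permutation `π` at the even positions -/
def ext (π : Equiv.Perm ℕ) : Equiv.Perm ℕ where
  toFun n := if n % 2 = 0 then 2 * π (n / 2) else n
  invFun n := if n % 2 = 0 then 2 * π.symm (n / 2) else n
  left_inv := by
    intro n
    dsimp only
    by_cases h : n % 2 = 0
    · rw [if_pos h, if_pos (by omega)]
      have e : 2 * π (n / 2) / 2 = π (n / 2) := by omega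
      rw [e, Equiv.symm_apply_apply]
      omega
    · rw [if_neg h, if_neg h]
  right_inv := by
    intro n
    dsimp only
    by_cases h : n % 2 = 0
    · rw [if_pos h, if_pos (by omega)]
      have e : 2 * π.symm (n / 2) / 2 = π.symm (n / 2) := by omega
      rw [e, Equiv.apply_symm_apply]
      omega
    · rw [if_neg h, if_neg h]

lemma ext_def (π : Equiv.Perm ℕ) (n : ℕ) : ext π n = if n % 2 = 0 then 2 * π (n / 2) else n := rfl

lemma ext_even (π : Equiv.Perm ℕ) (n : ℕ) : ext π (2 * n) = 2 * π n := by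
  rw [ext_def, if_pos (by omega)]
  have e : 2 * n / 2 = n := by omega
  rw [e]

lemma ext_odd (π : Equiv.Perm ℕ) (n : ℕ) : ext π (2 * n + 1) = 2 * n + 1 := by
  rw [ext_def, if_neg (by omega)]

lemma isV_ext {π : Equiv.Perm ℕ} (hπ : IsV π) : IsV (ext π) := by
  obtain ⟨N, hN⟩ := hπ
  refine ⟨N + 1, fun r hr => ?_⟩
  rw [pow_succ] at hr
  obtain ⟨s, hs⟩ := Nat.even_or_odd' r
  rcases hs with rfl | rfl
  · obtain ⟨k, i, hk⟩ := hN s (by omega)
    refine ⟨k + 1, 2 * i, fun n => ?_⟩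
    have e : 2 ^ (N + 1) * n + 2 * s = 2 * (2 ^ N * n + s) := by ring
    rw [e, ext_even, hk]
    ring
  · refine ⟨N + 1, 2 * s + 1, fun n => ?_⟩
    have e : 2 ^ (N + 1) * n + (2 * s + 1) = 2 * (2 ^ N * n + s) + 1 := by ring
    rw [e, ext_odd]

lemma eqv_left {x x' : ℕ → Bool} (h : Eqv x x') (y : ℕ → Bool) : Eqv (jo x y) (jo x' y) := by
  intro A hA
  refine h {u | jo u y ∈ A} fun π hπ u => ?_
  have h1 : (fun n => jo u y (ext π n)) = jo (fun n => u (π n)) y := by
    funext n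
    obtain ⟨m, hm⟩ := Nat.even_or_odd' n
    rcases hm with rfl | rfl
    · change jo u y (ext π (2 * m)) = _
      rw [ext_even, jo_even, jo_even]
    · change jo u y (ext π (2 * m + 1)) = _
      rw [ext_odd, jo_odd, jo_odd]
  have h2 := hA (ext π) (isV_ext hπ) (jo u y)
  rw [h1] at h2
  exact h2

lemma eqv_right (x : ℕ → Bool) {y y' : ℕ → Bool} (h : Eqv y y') : Eqv (jo x y) (jo x y') :=
  eqv_trans (eqv_swap x y) (eqv_trans (eqv_left h x) (eqv_swap y' x))

lemma jo_split (b : ℕ → Bool) : jo (fun n => b (2 * n)) (fun n => b (2 * n + 1)) = b := by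
  funext n
  obtain ⟨m, hm⟩ := Nat.even_or_odd' n
  rcases hm with rfl | rfl
  · rw [jo_even]
  · rw [jo_odd]

lemma absorb : ∀ k i : ℕ, i < 2 ^ k → ∀ b a : ℕ → Bool,
    (∀ n, b (2 ^ k * (2 * n) + i) = b (2 ^ k * n + i) ∧ b (2 ^ k * (2 * n + 1) + i) = a n) →
    Eqv (jo b a) b := by
  intro k
  induction k with
  | zero =>
    intro i hi b a h
    have hi0 : i = 0 := by
      rw [pow_zero] at hi
      omega
    rw [hi0] at h
    have e : jo b a = b := by
      funext n
      obtain ⟨m, hm⟩ := Nat.even_or_odd' n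
      have hm' := h m
      simp only [pow_zero, one_mul, add_zero] at hm'
      rcases hm with rfl | rfl
      · rw [jo_even, hm'.1]
      · rw [jo_odd, hm'.2]
    rw [e]
    exact eqv_refl b
  | succ k ih =>
    intro i hi b a h
    obtain ⟨b₀, hb₀⟩ : ∃ b₀ : ℕ → Bool, b₀ = fun n => b (2 * n) := ⟨_, rfl⟩
    obtain ⟨b₁, hb₁⟩ : ∃ b₁ : ℕ → Bool, b₁ = fun n => b (2 * n + 1) := ⟨_, rfl⟩
    have hb : jo b₀ b₁ = b := by
      rw [hb₀, hb₁]
      exact jo_split b
    rw [pow_succ] at hi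
    obtain ⟨j, hj⟩ := Nat.even_or_odd' i
    rcases hj with rfl | rfl
    · have h0 : Eqv (jo b₀ a) b₀ := by
        refine ih j (by omega) b₀ a fun n => ?_
        obtain ⟨h1, h2⟩ := h n
        have e1 : 2 ^ (k + 1) * (2 * n) + 2 * j = 2 * (2 ^ k * (2 * n) + j) := by ring
        have e2 : 2 ^ (k + 1) * n + 2 * j = 2 * (2 ^ k * n + j) := by ring
        have e3 : 2 ^ (k + 1) * (2 * n + 1) + 2 * j = 2 * (2 ^ k * (2 * n + 1) + j) := by ring
        rw [e1, e2] at h1
        rw [e3] at h2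
        rw [hb₀]
        exact ⟨h1, h2⟩
      rw [← hb]
      refine eqv_trans (eqv_asc b₀ b₁ a) ?_
      refine eqv_trans (eqv_right b₀ (eqv_swap b₁ a)) ?_
      refine eqv_trans (eqv_symm (eqv_asc b₀ a b₁)) ?_
      exact eqv_left h0 b₁
    · have h0 : Eqv (jo b₁ a) b₁ := by
        refine ih j (by omega) b₁ a fun n => ?_
        obtain ⟨h1, h2⟩ := h n
        have e1 : 2 ^ (k + 1) * (2 * n) + (2 * j + 1) = 2 * (2 ^ k * (2 * n) + j) + 1 := by ring
        have e2 : 2 ^ (k + 1) * n + (2 * j + 1) = 2 * (2 ^ k * n + j) + 1 := by ring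
        have e3 : 2 ^ (k + 1) * (2 * n + 1) + (2 * j + 1) = 2 * (2 ^ k * (2 * n + 1) + j) + 1 := by
          ring
        rw [e1, e2] at h1
        rw [e3] at h2
        rw [hb₁]
        exact ⟨h1, h2⟩
      rw [← hb]
      exact eqv_trans (eqv_asc b₀ b₁ a) (eqv_right b₀ h0)

/-- VCL -/
theorem vcl : VclStmt := by
  rintro a b ⟨k, i, hi, h⟩ ⟨k', i', hi', h'⟩
  have h1 : Eqv (jo b a) b := absorb k i hi b a h
  have h2 : Eqv (jo a b) a := absorb k' i' hi' a b h'
  exact eqv_trans (eqv_symm h2) (eqv_trans (eqv_swap a b) h1)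

end Pool.Agent.TDV.H31
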